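import Pool.Agent.N659.HB.Stm6

/-!
The folded law has a bounded density.
-/

namespace Pool.Agent.N433.LD.Bdr

open MeasureTheory Filter Pool.Agent.N659.HB
open scoped Topology ENNReal

theorem lin (w δ : ℝ) (hδ : 0 < δ) (G : ℝ → ℝ≥0∞) (hG : Measurable G) :
    ∫⁻ a, G (w + δ * a) = ENNReal.ofReal δ⁻¹ * ∫⁻ v, G v := by
  have h1 : Measure.map (fun a : ℝ => w + δ * a) volume = ENNReal.ofReal |δ⁻¹| • volume := by
    have : (fun a : ℝ => w + δ * a) = (fun b => w + b) ∘ (fun a => δ * a) := rfl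
    rw [this, ← Measure.map_map (measurable_const_add w) (measurable_const_mul δ),
      Real.map_volume_mul_left hδ.ne', Measure.map_smul, MeasureTheory.map_add_left_eq_self]
  rw [← lintegral_map hG (by fun_prop : Measurable fun a : ℝ => w + δ * a), h1,
    lintegral_smul_measure, abs_of_pos (inv_pos.mpr hδ), smul_eq_mul]

theorem cyl_le (μ : Measure ℝ) [IsProbabilityMeasure μ] (W δ : ℝ) (hδ : 0 < δ)
    (hμ : μ (Set.Icc (-W) W)ᶜ = 0) (S : Set ℝ) (hS : MeasurableSet S) (F : ℝ → ℝ≥0∞)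
    (hF : Measurable F)
    (h : ∀ w ∈ Set.Icc (-W) W, ∀ a, w + δ * a ∈ S →
      ProbabilityTheory.cauchyPDF 0 1 a ≤ F (w + δ * a)) :
    cyl μ δ S ≤ ENNReal.ofReal δ⁻¹ * ∫⁻ v in S, F v := by
  have hm : Measurable fun p : ℝ × ℝ => p.1 + δ * p.2 := by fun_prop
  unfold cyl
  rw [Measure.map_apply hm hS, Measure.prod_apply (hm hS)]
  have hae : ∀ᵐ w ∂μ, w ∈ Set.Icc (-W) W := by
    rw [ae_iff]; exact hμ
  calc ∫⁻ w, (ProbabilityTheory.cauchyMeasure 0 1)
        (Prod.mk w ⁻¹' ((fun p : ℝ × ℝ => p.1 + δ * p.2) ⁻¹' S)) ∂μ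
      ≤ ∫⁻ _w, (ENNReal.ofReal δ⁻¹ * ∫⁻ v in S, F v) ∂μ := by
        apply lintegral_mono_ae
        filter_upwards [hae] with w hw
        have hma : Measurable fun a : ℝ => w + δ * a := by fun_prop
        have e : (Prod.mk w ⁻¹' ((fun p : ℝ × ℝ => p.1 + δ * p.2) ⁻¹' S))
          = (fun a : ℝ => w + δ * a) ⁻¹' S := rfl
        rw [e, ProbabilityTheory.cauchyMeasure_of_scale_ne_zero _ one_ne_zero,
          withDensity_apply _ (hma hS)]
        rw [← lintegral_indicator hS, ← lin w δ hδ _ (hF.indicator hS),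
          ← lintegral_indicator (hma hS)]
        apply lintegral_mono
        intro a
        by_cases ha : w + δ * a ∈ S
        · rw [Set.indicator_of_mem (show a ∈ (fun a : ℝ => w + δ * a) ⁻¹' S from ha)]
          show _ ≤ S.indicator F (w + δ * a)
          rw [Set.indicator_of_mem ha]
          exact h w hw a ha
        · rw [Set.indicator_of_notMem (show a ∉ (fun a : ℝ => w + δ * a) ⁻¹' S from ha)]
          exact bot_le
    _ = _ := by rw [lintegral_const, measure_univ, mul_one]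

theorem pdf_le (a : ℝ) : ProbabilityTheory.cauchyPDF 0 1 a ≤ ENNReal.ofReal Real.pi⁻¹ := by
  unfold ProbabilityTheory.cauchyPDF
  apply ENNReal.ofReal_le_ofReal
  unfold ProbabilityTheory.cauchyPDFReal
  simp only [NNReal.coe_one, mul_one, sub_zero, one_pow]
  have h1 : (a ^ 2 + 1)⁻¹ ≤ 1 := inv_le_one_of_one_le₀ (by nlinarith [sq_nonneg a])
  have hpi : 0 < Real.pi⁻¹ := inv_pos.mpr Real.pi_pos
  nlinarith

theorem pdf_le' {W δ w a : ℝ} (hw : w ∈ Set.Icc (-W) W) (hv : w + δ * a ≠ 0) :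
    ProbabilityTheory.cauchyPDF 0 1 a
      ≤ ENNReal.ofReal ((2 * (W ^ 2 + δ ^ 2) * Real.pi⁻¹) / (w + δ * a) ^ 2) := by
  unfold ProbabilityTheory.cauchyPDF
  apply ENNReal.ofReal_le_ofReal
  unfold ProbabilityTheory.cauchyPDFReal
  simp only [NNReal.coe_one, mul_one, sub_zero, one_pow]
  have hv2 : 0 < (w + δ * a) ^ 2 := by positivity
  have hpi : 0 < Real.pi⁻¹ := inv_pos.mpr Real.pi_pos
  have ha : 0 < a ^ 2 + 1 := by positivity
  have hw2 : w ^ 2 ≤ W ^ 2 := by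
    apply sq_le_sq'
    · exact hw.1
    · exact hw.2
  rw [le_div_iff₀ hv2, mul_assoc, mul_comm (2 * (W ^ 2 + δ ^ 2)) _]
  apply mul_le_mul_of_nonneg_left _ hpi.le
  rw [inv_mul_le_iff₀ ha]
  have h1 : (w + δ * a) ^ 2 ≤ 2 * w ^ 2 + 2 * (δ * a) ^ 2 := by nlinarith [sq_nonneg (w - δ * a)]
  have h2 : 0 ≤ W ^ 2 * a ^ 2 := by positivity
  nlinarith [sq_nonneg δ]

theorem img (R C : ℝ) (hR : 0 < R) (hC : 0 ≤ C) (A : Set ℝ) (hA : MeasurableSet A) :
    ∫⁻ v in {v : ℝ | R < |v| ∧ R ^ 2 / v ∈ A}, ENNReal.ofReal (C / v ^ 2)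
      ≤ ENNReal.ofReal (C / R ^ 2) * volume A := by
  set T : Set ℝ := A ∩ {y : ℝ | y ≠ 0} with hT
  have hTm : MeasurableSet T := hA.inter (measurableSet_singleton (0 : ℝ)).compl
  have hsub : {v : ℝ | R < |v| ∧ R ^ 2 / v ∈ A} ⊆ (fun y : ℝ => R ^ 2 / y) '' T := by
    intro v hv
    have hv0 : v ≠ 0 := by
      rintro rfl
      have := hv.1
      rw [abs_zero] at this
      linarith
    refine ⟨R ^ 2 / v, ⟨hv.2, ?_⟩, ?_⟩
    · show R ^ 2 / v ≠ 0
      positivity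
    · show R ^ 2 / (R ^ 2 / v) = v
      field_simp
  have hder : ∀ y ∈ T, HasDerivWithinAt (fun y : ℝ => R ^ 2 / y) (-(R ^ 2) / y ^ 2) T y := by
    intro y hy
    have hy0 : y ≠ 0 := hy.2
    have h1 : HasDerivAt (fun y : ℝ => R ^ 2 * y⁻¹) (R ^ 2 * -(y ^ 2)⁻¹) y :=
      (hasDerivAt_inv hy0).const_mul (R ^ 2)
    have h2 : R ^ 2 * -(y ^ 2)⁻¹ = -(R ^ 2) / y ^ 2 := by
      rw [div_eq_mul_inv]; ring
    rw [h2] at h1
    have h3 : (fun y : ℝ => R ^ 2 * y⁻¹) = fun y : ℝ => R ^ 2 / y := by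
      funext y; rw [div_eq_mul_inv]
    rw [h3] at h1
    exact h1.hasDerivWithinAt
  have hinj : Set.InjOn (fun y : ℝ => R ^ 2 / y) T := by
    intro y hy z hz hyz
    have hy0 : y ≠ 0 := hy.2
    have hz0 : z ≠ 0 := hz.2
    have hR2 : R ^ 2 ≠ 0 := by positivity
    have h' : R ^ 2 / y = R ^ 2 / z := hyz
    rw [div_eq_div_iff hy0 hz0] at h'
    exact (mul_left_cancel₀ hR2 h').symm
  calc ∫⁻ v in {v : ℝ | R < |v| ∧ R ^ 2 / v ∈ A}, ENNReal.ofReal (C / v ^ 2)
      ≤ ∫⁻ v in (fun y : ℝ => R ^ 2 / y) '' T, ENNReal.ofReal (C / v ^ 2) :=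
        lintegral_mono_set hsub
    _ = ∫⁻ y in T, ENNReal.ofReal |-(R ^ 2) / y ^ 2| * ENNReal.ofReal (C / (R ^ 2 / y) ^ 2) :=
        lintegral_image_eq_lintegral_abs_deriv_mul hTm hder hinj _
    _ = ∫⁻ _y in T, ENNReal.ofReal (C / R ^ 2) := by
        apply setLIntegral_congr_fun hTm
        intro y hy
        have hy0 : y ≠ 0 := hy.2
        show ENNReal.ofReal |-(R ^ 2) / y ^ 2| * ENNReal.ofReal (C / (R ^ 2 / y) ^ 2)
          = ENNReal.ofReal (C / R ^ 2)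
        rw [← ENNReal.ofReal_mul (abs_nonneg _)]
        congr 1
        rw [neg_div, abs_neg, abs_of_pos (by positivity)]
        field_simp
    _ = ENNReal.ofReal (C / R ^ 2) * volume T := by
        rw [setLIntegral_const]
    _ ≤ ENNReal.ofReal (C / R ^ 2) * volume A := by
        gcongr
        exact Set.inter_subset_left

theorem main : S_BDR := by
  intro μ _ W δ R hδ hW hμ hR
  set C : ℝ := 2 * (W ^ 2 + δ ^ 2) * Real.pi⁻¹ with hC
  have hpi : 0 < Real.pi⁻¹ := inv_pos.mpr Real.pi_pos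
  have hC0 : 0 ≤ C := by positivity
  have hδi : 0 < δ⁻¹ := inv_pos.mpr hδ
  refine ⟨δ⁻¹ * Real.pi⁻¹ + δ⁻¹ * (C / R ^ 2), by positivity, fun A hA => ?_⟩
  have hfm : Measurable (fold R) := by
    unfold fold
    exact Measurable.ite (measurableSet_le measurable_norm measurable_const) measurable_id
      (measurable_const.div measurable_id)
  rw [Measure.map_apply hfm hA]
  have hS2 : MeasurableSet {v : ℝ | R < |v| ∧ R ^ 2 / v ∈ A} := by
    apply MeasurableSet.inter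
    · exact measurableSet_lt measurable_const measurable_norm
    · exact (measurable_const.div measurable_id) hA
  have hsub : fold R ⁻¹' A ⊆ A ∪ {v : ℝ | R < |v| ∧ R ^ 2 / v ∈ A} := by
    intro v hv
    rw [Set.mem_preimage] at hv
    unfold fold at hv
    by_cases h : |v| ≤ R
    · rw [if_pos h] at hv; exact Or.inl hv
    · rw [if_neg h] at hv; exact Or.inr ⟨not_le.mp h, hv⟩
  have h1 : cyl μ δ A ≤ ENNReal.ofReal (δ⁻¹ * Real.pi⁻¹) * volume A := by
    have := cyl_le μ W δ hδ hμ A hA (fun _ => ENNReal.ofReal Real.pi⁻¹) measurable_const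
      (fun w _ a _ => pdf_le a)
    rwa [setLIntegral_const, ← mul_assoc, ← ENNReal.ofReal_mul hδi.le] at this
  have h2 : cyl μ δ {v : ℝ | R < |v| ∧ R ^ 2 / v ∈ A}
      ≤ ENNReal.ofReal (δ⁻¹ * (C / R ^ 2)) * volume A := by
    have := cyl_le μ W δ hδ hμ _ hS2 (fun v => ENNReal.ofReal (C / v ^ 2))
      (by fun_prop) (fun w hw a ha => pdf_le' hw (by
        intro h0
        have h3 := ha.1
        rw [h0, abs_zero] at h3
        linarith))
    refine this.trans ?_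
    rw [ENNReal.ofReal_mul hδi.le, mul_assoc]
    exact mul_le_mul_right (img R C hR hC0 A hA) _
  calc cyl μ δ (fold R ⁻¹' A) ≤ cyl μ δ (A ∪ {v : ℝ | R < |v| ∧ R ^ 2 / v ∈ A}) :=
        measure_mono hsub
    _ ≤ cyl μ δ A + cyl μ δ {v : ℝ | R < |v| ∧ R ^ 2 / v ∈ A} := measure_union_le _ _
    _ ≤ _ := add_le_add h1 h2
    _ = _ := by
        rw [← add_mul, ENNReal.ofReal_add (by positivity) (by positivity)]

end Pool.Agent.N433.LD.Bdr
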